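import Pool.Agent.TH133.Defs
import Mathlib.Data.Finsupp.Basic

/-!
# Zero-cycles on a surface and on its products with curves: definitions
-/

set_option autoImplicit false

universe u v w

namespace Pool.Agent.X308.K

open Pool.Agent.H914 Pool.Agent.W492.BB Pool.Agent.TH133

variable {k : Type u} [Field k] {𝒱 : VarClass k} (C : TheoryData.{u, v, 0} 𝒱 ℚ)

/-- `CH_0(X)_ℚ = ℚ`: the zero-cycles of degree zero on `X` are zero. -/
def ZeroCyclesTrivial (X : 𝒱.Obj) : Prop :=
  ∀ z : C.A X, C.Deg X.dim z → HasDegree C z 0 → z = 0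

/-- The action of the monomial `w` in the self-correspondences `x 0, x 1, …` of `U` on a cycle
(the first letter of `w` acts first). -/
noncomputable def wordAct {U : 𝒱.Obj} (x : ℕ → C.A (U.prod U)) : List ℕ → C.A U → C.A U
  | [], α => α
  | i :: w, α => wordAct x w (C.act (x i) α)

/-- The action of the noncommutative polynomial `f` (with rational coefficients, `f w` is the
coefficient of the monomial `w`) in the self-correspondences `x 0, x 1, …` of `U`. -/
noncomputable def polyAct {U : 𝒱.Obj} (x : ℕ → C.A (U.prod U)) (f : List ℕ →₀ ℚ) (α : C.A U) :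
    C.A U :=
  f.sum fun w c => c • wordAct C x w α

variable {C} {K : Type w} [Field K] (H : WeilTheoryData.{u, v, w} C K)

/-- Known facts on zero-cycles and divisors over an algebraically closed field:

* homologically trivial divisors on `T × T`, for a curve `T`, are sums of pull-backs from `T`;
* a homologically trivial zero-cycle on a variety of positive dimension is the push-forward of a
  homologically trivial zero-cycle on a curve;
* zero-cycles on `X × Y` are sums of products `x × y` of zero-cycles. -/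
structure KnownFacts : Prop where
  divisors : ∀ (T : 𝒱.Obj) (D : C.A (T.prod T)), T.dim = 1 → C.Deg 1 D → H.cl D = 0 →
    ∃ a b : C.A T, C.Deg 1 a ∧ C.Deg 1 b ∧ D = C.ext a 1 + C.ext 1 b
  curves : ∀ (X : 𝒱.Obj) (z : C.A X), 1 ≤ X.dim → C.Deg X.dim z → H.cl z = 0 →
    ∃ (T : 𝒱.Obj) (f : T ⟶ X) (w : C.A T), T.dim = 1 ∧ C.Deg 1 w ∧ H.cl w = 0 ∧ C.down f w = z
  points : ∀ (X Y : 𝒱.Obj) (z : C.A (X.prod Y)), C.Deg (X.prod Y).dim z →
    z ∈ Submodule.span ℚ {c | ∃ (x : C.A X) (y : C.A Y), C.Deg X.dim x ∧ C.Deg Y.dim y ∧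
      c = C.ext x y}

/-- `X` is a surface with `b_1 = b_3 = 0` (for example a K3 surface). -/
structure IsRegularSurface (X : 𝒱.Obj) : Prop where
  dim : X.dim = 2
  odd : ∀ a : H.A X, H.Deg 1 a ∨ H.Deg 3 a → a = 0

/-- The correspondence `Γ ∈ CH^(dim U)(U × U)` is homologically trivial. -/
def IsHomTrivial {U : 𝒱.Obj} (Γ : C.A (U.prod U)) : Prop := C.Deg U.dim Γ ∧ H.cl Γ = 0

/-- For all curves `T` the actions on `CH_0(X × T)` of any two homologically trivial
self-correspondences of `X × T` commute. -/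
def ActionsCommute (X : 𝒱.Obj) : Prop :=
  ∀ (T : 𝒱.Obj) (Γ Γ' : C.A ((X.prod T).prod (X.prod T))) (α : C.A (X.prod T)), T.dim = 1 →
    IsHomTrivial H Γ → IsHomTrivial H Γ' → C.Deg (X.prod T).dim α →
      C.act Γ (C.act Γ' α) = C.act Γ' (C.act Γ α)

/-- For all curves `T` the composition of any two homologically trivial self-correspondences of
`X × T` acts as zero on `CH_0(X × T)`. -/
def CompositionsVanish (X : 𝒱.Obj) : Prop :=
  ∀ (T : 𝒱.Obj) (Γ Γ' : C.A ((X.prod T).prod (X.prod T))) (α : C.A (X.prod T)), T.dim = 1 →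
    IsHomTrivial H Γ → IsHomTrivial H Γ' → C.Deg (X.prod T).dim α → C.act Γ (C.act Γ' α) = 0

/-- For all curves `T` the square of any homologically trivial self-correspondence of `X × T` acts
as zero on `CH_0(X × T)`. -/
def SquaresVanish (X : 𝒱.Obj) : Prop :=
  ∀ (T : 𝒱.Obj) (Γ : C.A ((X.prod T).prod (X.prod T))) (α : C.A (X.prod T)), T.dim = 1 →
    IsHomTrivial H Γ → C.Deg (X.prod T).dim α → C.act Γ (C.act Γ α) = 0

/-- For all curves `T` the actions on `CH_0(X × T)` of the homologically trivial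
self-correspondences of `X × T` satisfy the polynomial identity `f = 0`. -/
def SatisfyIdentity (X : 𝒱.Obj) (f : List ℕ →₀ ℚ) : Prop :=
  ∀ (T : 𝒱.Obj) (x : ℕ → C.A ((X.prod T).prod (X.prod T))) (α : C.A (X.prod T)), T.dim = 1 →
    (∀ i, IsHomTrivial H (x i)) → C.Deg (X.prod T).dim α → polyAct C x f α = 0

end Pool.Agent.X308.K
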