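import Pool.Agent.X308.K.Defs
import Pool.Agent.X308.G.Tensor
import Pool.Agent.X308.Z.Fin

/-!
# Zero-cycles on a surface and on its products with curves
-/

set_option autoImplicit false

universe u v w

namespace Pool.Agent.X308.K

open CategoryTheory Pool.Agent.H914 Pool.Agent.H914.VarClass Pool.Agent.H914.VarClass.Obj
  Pool.Agent.W492.BB Pool.Agent.W550.Corr Pool.Agent.TH133 Pool.Agent.Y148.BB Pool.Agent.X308.S
  Pool.Agent.X308.G

set_option linter.unusedSectionVars false

variable {k : Type u} [Field k] {𝒱 : VarClass k} {C : TheoryData.{u, v, 0} 𝒱 ℚ} {K : Type w}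
  [Field K] [hC : IsChowProj C]
  {H : WeilTheoryData.{u, v, w} C K} [hH : IsWeilProj H] {S T U V X Y Z W : 𝒱.Obj}

include hC hH

/-- Homologically trivial correspondences of curves act as zero on zero-cycles of degree zero. -/
lemma curve_act_zero (hK : KnownFacts H) (hT : T.dim = 1) {D : C.A (T.prod T)} (hD : C.Deg 1 D)
    (h0 : H.cl D = 0) {t : C.A T} (ht : C.Deg T.dim t) (ht0 : HasDegree C t 0) :
    C.act D t = 0 := by
  obtain ⟨a, b, ha, hb, rfl⟩ := hK.divisors T D hT hD h0
  have h1 : HasDegree C (1 * t) 0 := by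
    rw [one_mul]
    exact ht0
  rw [C.act_add, act_ext' h1, zero_smul, add_zero]
  exact act_ext_zero_of_lt (C.mul_mem ha ht) (by omega)

/-- The zero-cycles on `X × T` if the zero-cycles on `X` are trivial. -/
lemma exists_ext (hK : KnownFacts H) (hX : ZeroCyclesTrivial C X) {o : C.A X}
    (ho : C.Deg X.dim o) (ho1 : HasDegree C o 1) {z : C.A (X.prod T)}
    (hz : C.Deg (X.prod T).dim z) : ∃ t : C.A T, C.Deg T.dim t ∧ z = C.ext o t := by
  have h1 := hK.points X T z hz
  clear hz
  induction h1 using Submodule.span_induction with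
  | mem z hz =>
    obtain ⟨x, y, hx, hy, rfl⟩ := hz
    obtain ⟨q, hq⟩ := exists_hasDegree (C := C) hx
    have h2 : x - q • o = 0 := by
      apply hX _ (Submodule.sub_mem _ hx (Submodule.smul_mem _ q ho))
      have := O.HasDegree.sub' hq (O.HasDegree.smul' q ho1)
      rwa [mul_one, sub_self] at this
    refine ⟨q • y, Submodule.smul_mem _ q hy, ?_⟩
    rw [sub_eq_zero.1 h2, ext_smul_l, ext_smul_r]
  | zero => exact ⟨0, Submodule.zero_mem _, by rw [C.ext_zero_right]⟩
  | add x y _ _ ih ih' =>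
    obtain ⟨t, ht, h1⟩ := ih
    obtain ⟨t', ht', h1'⟩ := ih'
    exact ⟨t + t', Submodule.add_mem _ ht ht', by rw [ext_add_right, h1, h1']⟩
  | smul c x _ ih =>
    obtain ⟨t, ht, h1⟩ := ih
    exact ⟨c • t, Submodule.smul_mem _ c ht, by rw [ext_smul_r, h1]⟩

/-- (1) implies (3). -/
theorem compositions_of_trivial (hK : KnownFacts H) (hX : ZeroCyclesTrivial C X) :
    CompositionsVanish H X := by
  intro T Γ Γ' α hT hΓ hΓ' hα
  obtain ⟨o, ho, ho1⟩ := Z.exists_point (C := C) X
  have hβ := Z.act_mem_zero (H := H) hΓ'.1 hα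
  have hβ0 := Z.degree_act (H := H) hΓ'.1 hΓ'.2 hα
  have hγ := Z.act_mem_zero (H := H) hΓ.1 hβ
  obtain ⟨t, ht, h1⟩ := exists_ext hK hX ho ho1 hβ
  obtain ⟨t', ht', h2⟩ := exists_ext hK hX ho ho1 hγ
  have hsnd : ∀ t : C.A T, C.push (snd X T) (C.ext o t) = t := by
    intro t
    rw [push_snd_ext o t ho1, one_smul]
  have ht0 : HasDegree C t 0 := by
    have h3 := TH829.Prime.hasDegree_push (snd X T) hβ0
    rwa [h1, hsnd] at h3
  obtain ⟨F, hF, hF'⟩ := Z.exists_left X T ho
  have hD : C.comp F (C.comp Γ (C.graph (snd X T))) ∈ C.gr (T.prod T) 1 := by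
    have h3 : C.comp Γ (C.graph (snd X T)) ∈ C.gr ((X.prod T).prod T) T.dim :=
      comp_deg hΓ.1 (graph_mem' (snd X T)) (by ring)
    have h4 : C.comp F (C.comp Γ (C.graph (snd X T))) ∈ C.gr (T.prod T) T.dim :=
      comp_deg hF h3 (by ring)
    rw [hT] at h4
    exact_mod_cast h4
  have hD0 : H.cl (C.comp F (C.comp Γ (C.graph (snd X T)))) = 0 := by
    rw [cl_comp, cl_comp, hΓ.2, zero_comp, comp_zero]
  have h5 := curve_act_zero hK hT hD hD0 ht ht0
  rw [C.act_comp, C.act_comp, hF', C.act_graph] at h5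
  rw [h2]
  have h6 : t' = 0 := by
    rw [← hsnd t', ← h2, h1, h5]
  rw [h6, C.ext_zero_right]

/-- The key construction. -/
lemma exists_pair (hK : KnownFacts H) (hX : IsRegularSurface H X) {z : C.A X}
    (hz : C.Deg X.dim z) (hz0 : HasDegree C z 0) :
    ∃ (T : 𝒱.Obj) (A B : C.A ((X.prod T).prod (X.prod T))) (p : C.A (X.prod T)) (o : C.A X),
      T.dim = 1 ∧ IsHomTrivial H A ∧ IsHomTrivial H B ∧ C.Deg (X.prod T).dim p ∧
      HasDegree C o 1 ∧ C.push (fst X T) p = o ∧ C.push (fst X T) (C.act A p) = 0 ∧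
      C.act B p = 0 ∧ C.act A (C.act A p) = 0 ∧ C.push (fst X T) (C.act B (C.act A p)) = z ∧
      C.act A (C.act B (C.act A p)) = 0 ∧ C.act B (C.act B (C.act A p)) = 0 := by
  obtain ⟨T, g, v, hT, hv, hv0, hgv⟩ := hK.curves X z (by rw [hX.dim]; norm_num) hz
    (cl_zero_of_degree (H := H) hz hz0)
  have hg : C.graph g ∈ C.gr (T.prod X) 2 := by
    have := graph_mem' (C := C) g
    rw [hX.dim] at this
    exact_mod_cast this
  obtain ⟨Γ, h2, h3, h4⟩ := curve_replace hT hg (fun a ha => by
    apply hX.odd _ (Or.inr _)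
    have := actH_deg hg ha (by rw [hT]; norm_num : (1 : ℤ) + 2 * (2 - T.dim) = 3)
    exact this) hv hv0
  have h6 : C.push g v = z := hgv
  rw [C.act_graph, h6] at h4
  obtain ⟨o, ho, ho1⟩ := Z.exists_point (C := C) X
  obtain ⟨t, ht, ht1⟩ := Z.exists_point (C := C) T
  have hvT : C.Deg T.dim v := by
    rw [hT]
    exact_mod_cast hv
  have hvd : HasDegree C v 0 := hasDegree_zero_of_cl (H := H) hvT hv0
  have hΓX : C.Deg X.dim Γ := by
    rw [hX.dim]
    exact_mod_cast h2
  -- the modified correspondence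
  have hy := Z.act_mem_zero (H := H) hΓX ht
  have hy0 := Z.degree_act (H := H) hΓX h3 ht
  obtain ⟨y, hydef⟩ : ∃ y, y = C.act Γ t := ⟨_, rfl⟩
  rw [← hydef] at hy hy0
  have hycl := cl_zero_of_degree (H := H) hy hy0
  obtain ⟨Γ2, hΓ2⟩ : ∃ Γ2, Γ2 = Γ - C.ext 1 y := ⟨_, rfl⟩
  have hext : ∀ {s : C.A T} {q : ℚ}, HasDegree C s q → ∀ {V : 𝒱.Obj} (y : C.A V),
      C.act (C.ext (1 : C.A T) y) s = q • y := by
    intro s q hs V y
    apply act_ext'
    rw [one_mul]
    exact hs
  have hΓ2m : C.Deg X.dim Γ2 := by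
    rw [hΓ2]
    refine Submodule.sub_mem _ hΓX ?_
    have := ext_mem' (C.one_mem T) hy
    rwa [zero_add] at this
  have hΓ20 : H.cl Γ2 = 0 := by
    rw [hΓ2, map_sub, h3, TheoryData.ext, map_mul, H.cl_pull (snd T X), hycl, map_zero, mul_zero,
      sub_zero]
  have hΓ2t : C.act Γ2 t = 0 := by
    rw [hΓ2, C.act_sub, hext ht1 y, one_smul, ← hydef, sub_self]
  have hΓ2v : C.act Γ2 v = z := by
    rw [hΓ2, C.act_sub, hext hvd y, zero_smul, sub_zero, h4]
  obtain ⟨Γ1, hΓ1⟩ : ∃ Γ1, Γ1 = C.ext (1 : C.A T) v := ⟨_, rfl⟩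
  have hΓ1m : C.Deg T.dim Γ1 := by
    rw [hΓ1]
    have := ext_mem' (C.one_mem T) hvT
    rwa [zero_add] at this
  have hΓ10 : H.cl Γ1 = 0 := by
    rw [hΓ1, TheoryData.ext, map_mul, H.cl_pull (snd T T), hv0, map_zero, mul_zero]
  -- the maps
  obtain ⟨F, hF, hF'⟩ := Z.exists_left X T ho
  obtain ⟨G, hG, hG'⟩ := Z.exists_right X T ht
  have hsnd : ∀ (x : C.A X) (s : C.A T) (q : ℚ), HasDegree C x q →
      C.act (C.graph (snd X T)) (C.ext x s) = q • s := by
    intro x s q hq
    rw [C.act_graph, push_snd_ext x s hq]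
  refine ⟨T, C.comp (C.graph (snd X T)) (C.comp Γ1 F), C.comp (C.graph (snd X T)) (C.comp Γ2 G),
    C.ext o t, o, hT, ⟨?_, ?_⟩, ⟨?_, ?_⟩, ?_, ho1, ?_, ?_, ?_, ?_, ?_, ?_, ?_⟩
  · have h7 : C.comp Γ1 F ∈ C.gr (T.prod (X.prod T)) (X.prod T).dim := comp_deg hΓ1m hF (by ring)
    exact comp_deg (graph_mem' (snd X T)) h7 (by ring)
  · rw [cl_comp, cl_comp, hΓ10, zero_comp, comp_zero]
  · have h7 : C.comp Γ2 G ∈ C.gr (T.prod (X.prod T)) (X.prod T).dim := comp_deg hΓ2m hG (by ring)
    exact comp_deg (graph_mem' (snd X T)) h7 (by ring)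
  · rw [cl_comp, cl_comp, hΓ20, zero_comp, comp_zero]
  · have := ext_mem' ho ht
    rw [dim_prod]
    push_cast
    exact this
  · rw [push_fst_ext o t ht1, one_smul]
  · rw [C.act_comp, C.act_comp, hsnd o t 1 ho1, one_smul, hΓ1, hext ht1 v, one_smul, hF',
      push_fst_ext o v hvd, zero_smul]
  · rw [C.act_comp, C.act_comp, hsnd o t 1 ho1, one_smul, hΓ2t, TheoryData.act_map_zero]
  · rw [C.act_comp (C.graph (snd X T)) (C.comp Γ1 F) (C.ext o t), C.act_comp Γ1 F,
      hsnd o t 1 ho1, one_smul, hΓ1, hext ht1 v, one_smul, hF', C.act_comp, C.act_comp,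
      hsnd o v 1 ho1, one_smul, hext hvd v, zero_smul, TheoryData.act_map_zero]
  · rw [C.act_comp (C.graph (snd X T)) (C.comp Γ1 F) (C.ext o t), C.act_comp Γ1 F,
      hsnd o t 1 ho1, one_smul, hΓ1, hext ht1 v, one_smul, hF', C.act_comp, C.act_comp,
      hsnd o v 1 ho1, one_smul, hΓ2v, hG', push_fst_ext z t ht1, one_smul]
  all_goals
    rw [C.act_comp (C.graph (snd X T)) (C.comp Γ1 F) (C.ext o t), C.act_comp Γ1 F,
      hsnd o t 1 ho1, one_smul, hΓ1, hext ht1 v, one_smul, hF',
      C.act_comp (C.graph (snd X T)) (C.comp Γ2 G) (C.ext o v), C.act_comp Γ2 G,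
      hsnd o v 1 ho1, one_smul, hΓ2v, hG', C.act_comp, C.act_comp, hsnd z t 0 hz0, zero_smul,
      TheoryData.act_map_zero, TheoryData.act_map_zero]

omit hH in
lemma wordAct_zero (x : ℕ → C.A (U.prod U)) (w : List ℕ) : wordAct C x w 0 = 0 := by
  induction w with
  | nil => rfl
  | cons i w ih => rw [wordAct, TheoryData.act_map_zero, ih]

/-- (5) implies (1). -/
theorem trivial_of_identity (hK : KnownFacts H) (hX : IsRegularSurface H X) {f : List ℕ →₀ ℚ}
    (hf : SatisfyIdentity H X f) {i j : ℕ} (hij : f [i, j] ≠ 0) : ZeroCyclesTrivial C X := by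
  classical
  intro z hz hz0
  obtain ⟨T, A, B, p, o, hT, hA, hB, hp, ho1, hpo, hAp, hBp, hAA, hBA, hABA, hBBA⟩ :=
    exists_pair hK hX hz hz0
  let x : ℕ → C.A ((X.prod T).prod (X.prod T)) := fun k =>
    (if k = i then A else 0) + (if k = j then B else 0)
  have hx : ∀ k, IsHomTrivial H (x k) := by
    intro k
    have h1 : IsHomTrivial H (if k = i then A else 0) := by
      split_ifs
      · exact hA
      · exact ⟨Submodule.zero_mem _, map_zero _⟩
    have h2 : IsHomTrivial H (if k = j then B else 0) := by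
      split_ifs
      · exact hB
      · exact ⟨Submodule.zero_mem _, map_zero _⟩
    exact ⟨Submodule.add_mem _ h1.1 h2.1, by
      change H.cl (_ + _) = 0
      rw [map_add, h1.2, h2.2, add_zero]⟩
  have hx1 : ∀ k α, C.act (x k) α = (if k = i then C.act A α else 0) +
      (if k = j then C.act B α else 0) := by
    intro k α
    change C.act ((if k = i then A else 0) + (if k = j then B else 0)) α = _
    rw [C.act_add]
    split_ifs <;> simp [TheoryData.act_zero]
  have hx2 : ∀ k, C.act (x k) p = if k = i then C.act A p else 0 := by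
    intro k
    rw [hx1, hBp]
    split_ifs <;> rw [add_zero]
  have hx3 : ∀ k, C.act (x k) (C.act A p) = if k = j then C.act B (C.act A p) else 0 := by
    intro k
    rw [hx1, hAA]
    split_ifs <;> rw [zero_add]
  have hx4 : ∀ k, C.act (x k) (C.act B (C.act A p)) = 0 := by
    intro k
    rw [hx1, hABA, hBBA]
    split_ifs <;> rw [zero_add]
  have hword : ∀ w : List ℕ, C.push (fst X T) (wordAct C x w p) =
      if w = [] then o else if w = [i, j] then z else 0 := by
    intro w
    match w with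
    | [] => rw [wordAct, if_pos rfl, hpo]
    | [a] =>
      have e1 : ¬ ([a] : List ℕ) = [] := by simp
      have e2 : ¬ ([a] : List ℕ) = [i, j] := by simp
      rw [if_neg e1, if_neg e2, wordAct, wordAct, hx2]
      split_ifs
      · rw [hAp]
      · rw [map_zero]
    | [a, b] =>
      have e1 : ¬ ([a, b] : List ℕ) = [] := by simp
      rw [if_neg e1, wordAct, wordAct, wordAct, hx2]
      by_cases ha : a = i
      · rw [if_pos ha, hx3]
        by_cases hb : b = j
        · have e2 : ([a, b] : List ℕ) = [i, j] := by rw [ha, hb]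
          rw [if_pos hb, if_pos e2, hBA]
        · have e2 : ¬ ([a, b] : List ℕ) = [i, j] := by
            intro h
            simp at h
            exact hb h.2
          rw [if_neg hb, if_neg e2, map_zero]
      · have e2 : ¬ ([a, b] : List ℕ) = [i, j] := by
          intro h
          simp at h
          exact ha h.1
        rw [if_neg ha, if_neg e2, TheoryData.act_map_zero, map_zero]
    | a :: b :: c :: w =>
      have e1 : ¬ (a :: b :: c :: w : List ℕ) = [] := by simp
      have e2 : ¬ (a :: b :: c :: w : List ℕ) = [i, j] := by simp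
      rw [if_neg e1, if_neg e2, wordAct, wordAct, wordAct, hx2]
      by_cases ha : a = i
      · rw [if_pos ha, hx3]
        by_cases hb : b = j
        · rw [if_pos hb, hx4, wordAct_zero, map_zero]
        · rw [if_neg hb, TheoryData.act_map_zero, wordAct_zero, map_zero]
      · rw [if_neg ha, TheoryData.act_map_zero, TheoryData.act_map_zero, wordAct_zero, map_zero]
  have h1 := hf T x p hT hx hp
  have h2 : C.push (fst X T) (polyAct C x f p) = f [] • o + f [i, j] • z := by
    rw [polyAct, Finsupp.sum, map_sum]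
    have e1 : ∀ w ∈ f.support, C.push (fst X T) (f w • wordAct C x w p) =
        (if w = [] then f [] • o else 0) + (if w = [i, j] then f [i, j] • z else 0) := by
      intro w _
      rw [map_smul, hword w]
      by_cases h : w = []
      · subst h
        rw [if_pos rfl, if_pos rfl, if_neg (by simp), add_zero]
      · rw [if_neg h, if_neg h, zero_add]
        split_ifs with h'
        · rw [h']
        · rw [smul_zero]
    rw [Finset.sum_congr rfl e1, Finset.sum_add_distrib, Finset.sum_ite_eq', Finset.sum_ite_eq',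
      if_pos (Finsupp.mem_support_iff.2 hij)]
    congr 1
    split_ifs with h
    · rfl
    · rw [Finsupp.notMem_support_iff.1 h, zero_smul]
  rw [h1, map_zero] at h2
  have h3 : HasDegree C (f [] • o + f [i, j] • z) (f [] * 1 + f [i, j] * 0) :=
    O.HasDegree.add' (O.HasDegree.smul' _ ho1) (O.HasDegree.smul' _ hz0)
  rw [← h2, mul_one, mul_zero, add_zero] at h3
  have h4 : f [] = 0 := U.one_cancel (C := C)
    (fun X h => hH.one_ne_zero X (by rw [← map_one H.cl, h, map_zero])) h3 hasDegree_zero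
  rw [h4, zero_smul, zero_add] at h2
  exact Pool.Agent.X308.U.smul_cancel hij h2.symm

/-- **The zero-cycles on a surface and on its products with curves.** -/
theorem surface_iff (hK : KnownFacts H) (hX : IsRegularSurface H X) :
    List.TFAE [ZeroCyclesTrivial C X, ActionsCommute H X, CompositionsVanish H X,
      SquaresVanish H X, ∃ (f : List ℕ →₀ ℚ) (i j : ℕ), f [i, j] ≠ 0 ∧ SatisfyIdentity H X f] := by
  classical
  tfae_have 1 → 3 := fun h => compositions_of_trivial hK h
  tfae_have 3 → 2 := fun h T Γ Γ' α hT hΓ hΓ' hα => by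
    rw [h T Γ Γ' α hT hΓ hΓ' hα, h T Γ' Γ α hT hΓ' hΓ hα]
  tfae_have 3 → 4 := fun h T Γ α hT hΓ hα => h T Γ Γ α hT hΓ hΓ hα
  tfae_have 2 → 5 := by
    intro h
    refine ⟨Finsupp.single [0, 1] 1 - Finsupp.single [1, 0] 1, 0, 1, ?_, ?_⟩
    · rw [Finsupp.sub_apply, Finsupp.single_eq_same, Finsupp.single_eq_of_ne (by simp)]
      norm_num
    · intro T x α hT hx hα
      have h1 : polyAct C x (Finsupp.single [0, 1] 1 - Finsupp.single [1, 0] 1) α =
          polyAct C x (Finsupp.single [0, 1] 1) α - polyAct C x (Finsupp.single [1, 0] 1) α := by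
        rw [polyAct, polyAct, polyAct]
        apply Finsupp.sum_sub_index
        intro w c c'
        rw [sub_smul]
      rw [h1, polyAct, polyAct, Finsupp.sum_single_index (by rw [zero_smul]),
        Finsupp.sum_single_index (by rw [zero_smul]), one_smul, one_smul, sub_eq_zero]
      exact h T (x 1) (x 0) α hT (hx 1) (hx 0) hα
  tfae_have 4 → 5 := by
    intro h
    refine ⟨Finsupp.single [0, 0] 1, 0, 0, ?_, ?_⟩
    · rw [Finsupp.single_eq_same]
      exact one_ne_zero
    · intro T x α hT hx hα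
      rw [polyAct, Finsupp.sum_single_index (by rw [zero_smul]), one_smul]
      exact h T (x 0) α hT (hx 0) hα
  tfae_have 5 → 1 := fun ⟨f, i, j, hij, hf⟩ => trivial_of_identity hK hX hf hij
  tfae_finish

end Pool.Agent.X308.K
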